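import Pool.Agent.Helper3.FewP.GoalsB

/-!
# FewPoints (MP_d3128a_ag), packet STRIP-IXB: the block of a point
-/

set_option autoImplicit false

open Pool.Agent.Helper3.FewP

namespace Pool.Agent.Helper40.FewP.IXB

theorem t : G_IXB := by
  intro b κ' P j n hκ hP h1 h2
  set W : ℤ := 2 * (P : ℤ) ^ 2 * κ' with hW
  set D : ℤ := 2 * (P : ℤ) ^ 2 * n - (2 * (P : ℤ) - 1) * j with hD
  have hP' : (1 : ℤ) ≤ P := by exact_mod_cast hP
  have hκ' : (1 : ℤ) ≤ κ' := by exact_mod_cast hκ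
  have hW0 : 0 < W := by positivity
  have hD0 : 0 ≤ D := by omega
  have hDb : D < W * b := by
    have h3 : 2 * (P : ℤ) ^ 2 * (n - b * κ') = 2 * (P : ℤ) ^ 2 * n - W * b := by
      rw [hW]
      ring
    omega
  have hq0 : 0 ≤ D / W := Int.ediv_nonneg hD0 hW0.le
  have hqb : D / W < b := by
    rw [Int.ediv_lt_iff_lt_mul hW0]
    linarith [mul_comm W (b : ℤ)]
  have hi : (D / W).toNat < b := by omega
  have hcast : (((D / W).toNat : ℕ) : ℤ) = D / W := Int.toNat_of_nonneg hq0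
  have h4 : W * (D / W) ≤ D := Int.mul_ediv_self_le hW0.ne'
  have h5 : D < W * (D / W) + W := Int.lt_mul_ediv_self_add hW0
  refine ⟨⟨(D / W).toNat, hi⟩, ?_, ?_⟩
  · show (2 * (P : ℤ) - 1) * j + W * (((D / W).toNat : ℕ) : ℤ) ≤ 2 * (P : ℤ) ^ 2 * n
    rw [hcast]
    omega
  · show 2 * (P : ℤ) ^ 2 * (n - κ' * ((((D / W).toNat : ℕ) : ℤ) + 1)) < (2 * (P : ℤ) - 1) * j
    rw [hcast]
    have h6 : 2 * (P : ℤ) ^ 2 * (n - κ' * (D / W + 1)) =
        2 * (P : ℤ) ^ 2 * n - (W * (D / W) + W) := by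
      rw [hW]
      ring
    rw [h6]
    omega

end Pool.Agent.Helper40.FewP.IXB
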