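import Pool.Agent.Helper3.FewP.Goals

/-!
# FewPoints (MP_d3128a_ag), packet STRIP-SPC: specialisation of Laurent polynomials
-/

set_option autoImplicit false

open Pool.Agent.Helper3.FewP

namespace Pool.Agent.Helper40.FewP.SPC

theorem exists_shift {α : Type} (S : Finset α) (g : α → ℤ) :
    ∃ a : ℕ, ∀ γ ∈ S, 0 ≤ g γ + a := by
  refine ⟨S.sup fun γ => (-g γ).toNat, fun γ hγ => ?_⟩
  have h1 : (-g γ).toNat ≤ S.sup fun γ => (-g γ).toNat :=
    Finset.le_sup (f := fun γ => (-g γ).toNat) hγ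
  have h2 := Int.self_le_toNat (-g γ)
  have h3 : ((-g γ).toNat : ℤ) ≤ ((S.sup fun γ => (-g γ).toNat : ℕ) : ℤ) := by exact_mod_cast h1
  omega

theorem zpow_shift (u : ℂˣ) (z : ℤ) (a : ℕ) (h : 0 ≤ z + a) :
    (u : ℂ) ^ (z + a).toNat = ((u ^ z : ℂˣ) : ℂ) * (u : ℂ) ^ a := by
  have h1 : u ^ (z + a).toNat = u ^ z * u ^ a := by
    rw [← zpow_natCast u (z + a).toNat, Int.toNat_of_nonneg h, zpow_add, zpow_natCast]
  have h2 := congrArg (fun v : ℂˣ => (v : ℂ)) h1
  simpa using h2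

theorem t : G_SPC := by
  intro σ _ t ht f hf
  classical
  set S := f.coeff.support with hS
  obtain ⟨a, ha⟩ := exists_shift S (fun γ => γ.1)
  have hn : ∀ i : σ, ∃ a : ℕ, ∀ γ ∈ S, 0 ≤ γ.2 i + a := fun i => exists_shift S (fun γ => γ.2 i)
  choose n hn using hn
  let e : ℤ × (σ → ℤ) → (σ →₀ ℕ) := fun γ =>
    Finsupp.equivFunOnFinite.symm fun i => (γ.2 i + n i).toNat
  have he : ∀ γ i, e γ i = (γ.2 i + n i).toNat := fun _ _ => rfl
  let d : ℤ × (σ → ℤ) → ℕ := fun γ => (γ.1 + a).toNat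
  refine ⟨∑ γ ∈ S, MvPolynomial.monomial (e γ) (((f.coeff γ : ℚ) : ℂ) * (t : ℂ) ^ d γ), ?_, ?_⟩
  · intro hp
    obtain ⟨γ₀, hγ₀⟩ : S.Nonempty := by
      rw [hS, Finsupp.support_nonempty_iff]
      intro h0
      apply hf
      have h1 := congrArg AddMonoidAlgebra.ofCoeff h0
      rw [AddMonoidAlgebra.ofCoeff_coeff] at h1
      exact h1
    let q : Polynomial ℚ := ∑ γ ∈ S, if e γ = e γ₀ then
      Polynomial.C (f.coeff γ) * Polynomial.X ^ d γ else 0
    have h1 : Polynomial.aeval (t : ℂ) q = 0 := by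
      have h2 := congrArg (MvPolynomial.coeff (e γ₀)) hp
      rw [MvPolynomial.coeff_sum, MvPolynomial.coeff_zero] at h2
      rw [← h2, map_sum]
      refine Finset.sum_congr rfl fun γ _ => ?_
      rw [MvPolynomial.coeff_monomial]
      split_ifs with h3
      · rw [map_mul, map_pow, Polynomial.aeval_C, Polynomial.aeval_X]
        rfl
      · rw [map_zero]
    have h2 : q = 0 := (transcendental_iff.1 ht) q h1
    have h3 : q.coeff (d γ₀) = f.coeff γ₀ := by
      rw [Polynomial.finsetSum_coeff, Finset.sum_eq_single γ₀]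
      · rw [if_pos rfl, Polynomial.coeff_C_mul, Polynomial.coeff_X_pow, if_pos rfl, mul_one]
      · intro γ hγ hne
        split_ifs with h4
        · rw [Polynomial.coeff_C_mul, Polynomial.coeff_X_pow, if_neg, mul_zero]
          intro h5
          apply hne
          have h6 : γ.1 = γ₀.1 := by
            have h7 := ha γ hγ
            have h8 := ha γ₀ hγ₀
            change (γ₀.1 + (a : ℤ)).toNat = (γ.1 + (a : ℤ)).toNat at h5
            omega
          have h7 : γ.2 = γ₀.2 := by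
            funext i
            have h8 := hn i γ hγ
            have h9 := hn i γ₀ hγ₀
            have h10 := congrArg (fun m : σ →₀ ℕ => m i) h4
            change (γ.2 i + (n i : ℤ)).toNat = (γ₀.2 i + (n i : ℤ)).toNat at h10
            omega
          exact Prod.ext h6 h7
        · rw [Polynomial.coeff_zero]
      · intro h4
        exact absurd hγ₀ h4
    rw [h2, Polynomial.coeff_zero] at h3
    exact (Finsupp.mem_support_iff.1 hγ₀) h3.symm
  · intro x hx
    have h1 : evL t x f = ∑ γ ∈ S, ((f.coeff γ : ℚ) : ℂ) *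
        (((t ^ γ.1 : ℂˣ) : ℂ) * ∏ i, ((x i ^ γ.2 i : ℂˣ) : ℂ)) := by
      unfold evL
      rw [AddMonoidAlgebra.lift_apply']
      refine Finset.sum_congr rfl fun γ _ => ?_
      show ((f.coeff γ : ℚ) : ℂ) * (((t ^ γ.1 * ∏ i, x i ^ γ.2 i : ℂˣ)) : ℂ) = _
      rw [Units.val_mul, Units.coe_prod]
    have h2 : MvPolynomial.eval (fun i => (x i : ℂ)) (∑ γ ∈ S, MvPolynomial.monomial (e γ)
        (((f.coeff γ : ℚ) : ℂ) * (t : ℂ) ^ d γ)) =
        ((t : ℂ) ^ a * ∏ i, (x i : ℂ) ^ n i) * evL t x f := by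
      rw [h1, map_sum, Finset.mul_sum]
      refine Finset.sum_congr rfl fun γ hγ => ?_
      rw [MvPolynomial.eval_monomial, Finsupp.prod_fintype _ _ (fun i => pow_zero _)]
      have h3 : ∀ i, (x i : ℂ) ^ (e γ i) = ((x i ^ γ.2 i : ℂˣ) : ℂ) * (x i : ℂ) ^ n i := fun i =>
        zpow_shift (x i) (γ.2 i) (n i) (hn i γ hγ)
      rw [Finset.prod_congr rfl fun i _ => h3 i, Finset.prod_mul_distrib]
      have h4 : (t : ℂ) ^ d γ = ((t ^ γ.1 : ℂˣ) : ℂ) * (t : ℂ) ^ a := zpow_shift t γ.1 a (ha γ hγ)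
      rw [h4]
      ring
    rw [h2, hx, mul_zero]

end Pool.Agent.Helper40.FewP.SPC
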